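import Pool.Agent.Helper6.GH.FormAux
import Pool.Agent.Helper43.GH.Mach

/-!
GH, block C4a: the form on the kernel extends.
-/

open Matrix Module

namespace GH

open MH

variable {n : Type*} [Fintype n] [DecidableEq n] {L : Submodule ℂ (Matrix n n ℂ)} {h : Matrix n n ℂ}
  {E : ℝ → Matrix n n ℂ} {Λ : Finset ℝ}

/-- C4a: the form on the kernel extends: `mach` for `V + V*` (index type `n ⊕ n`, blocks `x`, `-xᵀ`) -/
theorem Gr.form (G : Gr L h E Λ) (h1 : (1 : Matrix n n ℂ) ∈ L)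
    (irr : ∀ T : Matrix n n ℂ, (∀ x ∈ L, T * x = x * T) → ∃ c : ℂ, T = c • (1 : Matrix n n ℂ))
    (h4 : 4 ≤ finrank ℂ (KK L E)) {Q : Matrix n n ℂ} (h2 : (E 0)ᵀ * Q = Q) (h3 : Q * E 0 = Q)
    (hz : ∀ z ∈ KK L E, zᵀ * Q + Q * z = 0) :
    ∃ B : Matrix n n ℂ, B * E 0 = Q ∧ (E 0)ᵀ * B = Q ∧ hᵀ * B + B * h = 0 ∧ ∀ ν : ℝ, ν ≠ 0 → ∀ x ∈ Ld L h ν, xᵀ * B + B * x = 0 :=
  form_aux6 G h2 h3 hz fun T hT => (gr26 G).mach (fam26 h1 irr) (four26 h4) hT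

end GH
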