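import Pool.Agent.Helper43.GH.Defs

/-!
GH-C4a: the form on the kernel extends. The Lie algebra `L2` of the matrices `diag (x, -xᵀ + c)` on `V + V*`, the
Hermitian element `diag (h, -hᵀ)`, and the operator with the single block `Q`.
-/

set_option linter.unusedSectionVars false
set_option linter.unusedVariables false

open Matrix Module

namespace GH

open MH

variable {n : Type*} [Fintype n] [DecidableEq n] {L : Submodule ℂ (Matrix n n ℂ)} {h : Matrix n n ℂ}
  {E : ℝ → Matrix n n ℂ} {Λ : Finset ℝ}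

/-- the matrix `diag (x, -xᵀ + c)` -/
def dd6 (x : Matrix n n ℂ) (c : ℂ) : Matrix (n ⊕ n) (n ⊕ n) ℂ :=
  fromBlocks x 0 0 (-xᵀ + c • (1 : Matrix n n ℂ))

/-- the Lie algebra on `V + V*` -/
def L26 (L : Submodule ℂ (Matrix n n ℂ)) : Submodule ℂ (Matrix (n ⊕ n) (n ⊕ n) ℂ) where
  carrier := {X | ∃ x ∈ L, ∃ c : ℂ, X = dd6 x c}
  add_mem' := by
    rintro a b ⟨x, hx, c, rfl⟩ ⟨y, hy, d, rfl⟩
    refine ⟨x + y, L.add_mem hx hy, c + d, ?_⟩
    unfold dd6
    rw [fromBlocks_add, transpose_add, add_smul, add_zero]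
    congr 1
    abel
  zero_mem' := ⟨0, L.zero_mem, 0, by
    unfold dd6
    rw [transpose_zero, neg_zero, zero_smul, add_zero, fromBlocks_zero]⟩
  smul_mem' := by
    rintro e a ⟨x, hx, c, rfl⟩
    refine ⟨e • x, L.smul_mem e hx, e * c, ?_⟩
    unfold dd6
    rw [fromBlocks_smul, transpose_smul, smul_zero, smul_add, smul_neg, smul_smul]

/-- the spectral projections of `diag (h, -hᵀ)` -/
def E26 (E : ℝ → Matrix n n ℂ) (μ : ℝ) : Matrix (n ⊕ n) (n ⊕ n) ℂ := fromBlocks (E μ) 0 0 (E (-μ))ᵀ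

/-- `diag (h, -hᵀ)` -/
def h26 (h : Matrix n n ℂ) : Matrix (n ⊕ n) (n ⊕ n) ℂ := fromBlocks h 0 0 (-hᵀ)

/-- the two projections -/
def f26 (n : Type*) [Fintype n] [DecidableEq n] (i : Fin 2) : Matrix (n ⊕ n) (n ⊕ n) ℂ :=
  if i = 0 then fromBlocks 1 0 0 0 else fromBlocks 0 0 0 1

private lemma sum_blocks6 {α : Type*} (s : Finset α) (a d : α → Matrix n n ℂ) :
    ∑ i ∈ s, fromBlocks (a i) 0 0 (d i) = fromBlocks (∑ i ∈ s, a i) 0 0 (∑ i ∈ s, d i) := by
  classical
  induction s using Finset.induction_on with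
  | empty => simp
  | insert i s hi ih =>
    rw [Finset.sum_insert hi, Finset.sum_insert hi, Finset.sum_insert hi, ih, fromBlocks_add, add_zero]

lemma dd6_h (h : Matrix n n ℂ) : dd6 h 0 = h26 h := by
  unfold dd6 h26
  rw [zero_smul, add_zero]

lemma dd6_mul_sub (x y : Matrix n n ℂ) (c d : ℂ) : dd6 x c * dd6 y d - dd6 y d * dd6 x c = dd6 (x * y - y * x) 0 := by
  unfold dd6
  rw [fromBlocks_multiply, fromBlocks_multiply, sub_eq_add_neg, fromBlocks_neg, fromBlocks_add]
  congr 1
  · simp [sub_eq_add_neg]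
  · simp
  · simp
  · rw [transpose_sub, transpose_mul, transpose_mul]
    simp only [zero_mul, zero_add, mul_add, add_mul, mul_smul_comm, smul_mul_assoc, mul_one, one_mul, neg_mul,
      mul_neg, zero_smul, add_zero]
    module

lemma spec26 (S : Spec h E Λ) : Spec (h26 h) (E26 E) (Λ ∪ Λ.image (fun μ => -μ)) := by
  have hsym : ∀ μ, μ ∉ Λ ∪ Λ.image (fun μ => -μ) → E μ = 0 ∧ E (-μ) = 0 := by
    intro μ hμ
    rw [Finset.mem_union, not_or] at hμ
    refine ⟨S.supp μ hμ.1, S.supp (-μ) fun h' => hμ.2 ?_⟩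
    exact Finset.mem_image.2 ⟨-μ, h', neg_neg μ⟩
  have hsum : ∀ g : ℝ → Matrix n n ℂ, (∀ μ, μ ∉ Λ → g μ = 0) →
      ∑ μ ∈ Λ ∪ Λ.image (fun μ => -μ), g μ = ∑ μ ∈ Λ, g μ := by
    intro g hg
    refine (Finset.sum_subset Finset.subset_union_left fun μ _ hμ => hg μ hμ).symm
  have hneg : ∀ g : ℝ → Matrix n n ℂ, ∑ μ ∈ Λ ∪ Λ.image (fun μ => -μ), g (-μ) =
      ∑ μ ∈ Λ ∪ Λ.image (fun μ => -μ), g μ := by
    intro g
    refine Finset.sum_bij (fun μ _ => -μ) ?_ ?_ ?_ ?_
    · intro μ hμ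
      rw [Finset.mem_union] at hμ ⊢
      rcases hμ with hμ | hμ
      · exact Or.inr (Finset.mem_image_of_mem _ hμ)
      · obtain ⟨ν, hν, rfl⟩ := Finset.mem_image.1 hμ
        left
        simpa using hν
    · intro a _ b _ hab
      exact neg_injective hab
    · intro μ hμ
      refine ⟨-μ, ?_, neg_neg μ⟩
      rw [Finset.mem_union] at hμ ⊢
      rcases hμ with hμ | hμ
      · exact Or.inr (Finset.mem_image_of_mem _ hμ)
      · obtain ⟨ν, hν, rfl⟩ := Finset.mem_image.1 hμ
        left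
        simpa using hν
    · intro μ _
      rfl
  refine ⟨?_, ?_, ?_, ?_, ?_⟩
  · intro μ
    unfold E26
    rw [fromBlocks_conjTranspose, S.star, conjTranspose_zero]
    have : ((E (-μ))ᵀ)ᴴ = (E (-μ))ᵀ := by
      ext i j
      have h2 := congrFun (congrFun (S.star (-μ)) j) i
      rw [conjTranspose_apply] at h2
      rw [conjTranspose_apply, transpose_apply, transpose_apply, h2]
    rw [this]
  · intro μ ν
    unfold E26
    rw [fromBlocks_multiply]
    simp only [mul_zero, zero_mul, add_zero, zero_add]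
    rw [S.mul, ← transpose_mul, S.mul]
    by_cases hμν : μ = ν
    · subst hμν
      rw [if_pos rfl, if_pos rfl, if_pos rfl]
    · rw [if_neg hμν, if_neg (fun h' => hμν (neg_injective h').symm), if_neg hμν, transpose_zero, fromBlocks_zero]
  · intro μ hμ
    unfold E26
    rw [(hsym μ hμ).1, (hsym μ hμ).2, transpose_zero, fromBlocks_zero]
  · unfold E26
    rw [sum_blocks6, hsum E S.supp, S.sum]
    have h1 : ∑ μ ∈ Λ ∪ Λ.image (fun μ => -μ), (E (-μ))ᵀ = 1 := by
      rw [hneg (fun μ => (E μ)ᵀ), ← transpose_sum, hsum E S.supp, S.sum, transpose_one]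
    rw [h1, fromBlocks_one]
  · unfold E26 h26
    have h0 : ∀ μ : ℝ, (μ : ℂ) • fromBlocks (E μ) 0 0 (E (-μ))ᵀ =
        fromBlocks ((μ : ℂ) • E μ) 0 0 ((μ : ℂ) • (E (-μ))ᵀ) := by
      intro μ
      rw [fromBlocks_smul, smul_zero]
    simp only [h0]
    rw [sum_blocks6, hsum (fun μ => (μ : ℂ) • E μ) (fun μ hμ => by rw [S.supp μ hμ, smul_zero]), ← S.eq]
    have h1 : ∑ μ ∈ Λ ∪ Λ.image (fun μ => -μ), (μ : ℂ) • (E (-μ))ᵀ = -hᵀ := by
      have h2 := hneg (fun μ => (((-μ : ℝ)) : ℂ) • (E μ)ᵀ)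
      simp only [neg_neg] at h2
      rw [h2, hsum (fun μ => (((-μ : ℝ)) : ℂ) • (E μ)ᵀ) (fun μ hμ => by rw [S.supp μ hμ, transpose_zero, smul_zero])]
      conv_rhs => rw [S.eq]
      rw [transpose_sum, ← Finset.sum_neg_distrib]
      refine Finset.sum_congr rfl fun μ _ => ?_
      rw [transpose_smul]
      push_cast
      rw [neg_smul]
    rw [h1]

lemma gr26 (G : Gr L h E Λ) : Gr (L26 L) (h26 h) (E26 E) (Λ ∪ Λ.image (fun μ => -μ)) where
  spec := spec26 G.spec
  br := by
    rintro _ ⟨x, hx, c, rfl⟩ _ ⟨y, hy, d, rfl⟩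
    exact ⟨x * y - y * x, G.br x hx y hy, 0, dd6_mul_sub x y c d⟩
  st := by
    rintro _ ⟨x, hx, c, rfl⟩
    refine ⟨xᴴ, G.st x hx, star c, ?_⟩
    unfold dd6
    rw [fromBlocks_conjTranspose, conjTranspose_zero, conjTranspose_add, conjTranspose_neg, conjTranspose_smul,
      conjTranspose_one]
    congr 2
  mem := ⟨h, G.mem, 0, (dd6_h h).symm⟩

lemma fam26 (h1 : (1 : Matrix n n ℂ) ∈ L)
    (irr : ∀ T : Matrix n n ℂ, (∀ x ∈ L, T * x = x * T) → ∃ c : ℂ, T = c • (1 : Matrix n n ℂ)) :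
    Fam (L26 L) (f26 n) where
  mul := by
    intro i j
    fin_cases i <;> fin_cases j <;> simp [f26, fromBlocks_multiply]
  star := by
    intro i
    fin_cases i <;> simp [f26, fromBlocks_conjTranspose]
  sum := by
    rw [Fin.sum_univ_two]
    simp [f26, fromBlocks_add, fromBlocks_one]
  mem := by
    intro i
    fin_cases i
    · refine ⟨1, h1, 1, ?_⟩
      simp [f26, dd6]
    · refine ⟨0, L.zero_mem, 1, ?_⟩
      simp [f26, dd6]
  cen := by
    rintro i _ ⟨x, hx, c, rfl⟩
    fin_cases i <;> simp [f26, dd6, fromBlocks_multiply]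
  com := by
    intro T hT
    obtain ⟨a, b, c, d, rfl⟩ : ∃ a b c d, T = fromBlocks a b c d :=
      ⟨T.toBlocks₁₁, T.toBlocks₁₂, T.toBlocks₂₁, T.toBlocks₂₂, (fromBlocks_toBlocks T).symm⟩
    have e1 := hT (f26 n 0) ⟨1, h1, 1, by simp [f26, dd6]⟩
    simp only [f26, if_true, fromBlocks_multiply, mul_one, mul_zero, add_zero, one_mul, zero_mul] at e1
    rw [fromBlocks_inj] at e1
    obtain ⟨-, hb, hc, -⟩ := e1
    have e2 : ∀ x ∈ L, a * x = x * a ∧ dᵀ * x = x * dᵀ := by
      intro x hx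
      have e3 := hT (dd6 x 0) ⟨x, hx, 0, rfl⟩
      unfold dd6 at e3
      rw [zero_smul, add_zero, fromBlocks_multiply, fromBlocks_multiply, fromBlocks_inj] at e3
      obtain ⟨e4, -, -, e5⟩ := e3
      simp only [mul_zero, zero_mul, add_zero, zero_add, mul_neg, neg_mul, neg_inj] at e4 e5
      refine ⟨e4, ?_⟩
      have e6 := congrArg Matrix.transpose e5
      rw [transpose_mul, transpose_mul, transpose_transpose] at e6
      exact e6.symm
    obtain ⟨p, hp⟩ := irr a fun x hx => (e2 x hx).1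
    obtain ⟨q, hq⟩ := irr dᵀ fun x hx => (e2 x hx).2
    refine ⟨![p, q], ?_⟩
    have hd : d = q • (1 : Matrix n n ℂ) := by
      have := congrArg Matrix.transpose hq
      rw [transpose_transpose, transpose_smul, transpose_one] at this
      exact this
    rw [Fin.sum_univ_two, hp, hd, ← hb, hc]
    simp [f26, fromBlocks_smul, fromBlocks_add]

lemma kk26 {z : Matrix n n ℂ} (hz : z ∈ KK L E) : dd6 z 0 ∈ KK (L26 L) (E26 E) := by
  refine ⟨⟨z, hz.1, 0, rfl⟩, ?_⟩
  have h1 : E 0 * z * E 0 = z := hz.2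
  unfold dd6 E26
  rw [neg_zero, zero_smul, add_zero, fromBlocks_multiply, fromBlocks_multiply]
  simp only [mul_zero, zero_mul, add_zero, zero_add, mul_neg, neg_mul]
  rw [h1, ← transpose_mul, ← transpose_mul, ← mul_assoc, h1, neg_zero]

lemma four26 (h4 : 4 ≤ finrank ℂ (KK L E)) : Four (L26 L) (E26 E) (f26 n) := by
  intro i
  let φ : Matrix n n ℂ →ₗ[ℂ] Matrix (n ⊕ n) (n ⊕ n) ℂ :=
    { toFun := fun z => f26 n i * dd6 z 0
      map_add' := fun x y => by
        rw [← mul_add]
        congr 1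
        unfold dd6
        rw [fromBlocks_add, transpose_add, zero_smul, add_zero, add_zero, add_zero, neg_add, add_zero]
      map_smul' := fun c x => by
        rw [RingHom.id_apply, ← mul_smul_comm]
        congr 1
        unfold dd6
        rw [fromBlocks_smul, transpose_smul, zero_smul, add_zero, add_zero, smul_neg, smul_zero] }
  have hφ : Function.Injective φ := by
    intro x y hxy
    have e : f26 n i * dd6 x 0 = f26 n i * dd6 y 0 := hxy
    fin_cases i
    · simp only [f26, dd6, Fin.zero_eta, if_true, fromBlocks_multiply, one_mul, zero_mul, mul_zero, add_zero,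
        zero_add, fromBlocks_inj] at e
      exact e.1
    · simp only [f26, dd6, Fin.mk_one, one_ne_zero, if_false, fromBlocks_multiply, one_mul, zero_mul, mul_zero,
        add_zero, zero_add, zero_smul, fromBlocks_inj, neg_inj] at e
      exact transpose_injective e.2.2.2
  let g : KK L E →ₗ[ℂ] (KK (L26 L) (E26 E)).map (LinearMap.mulLeft ℂ (f26 n i)) :=
    (φ.domRestrict (KK L E)).codRestrict _ fun z => ⟨dd6 (z : Matrix n n ℂ) 0, kk26 z.2, rfl⟩
  have hg : Function.Injective g := by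
    intro x y hxy
    have e : φ (x : Matrix n n ℂ) = φ (y : Matrix n n ℂ) := congrArg Subtype.val hxy
    exact Subtype.ext (hφ e)
  exact h4.trans (LinearMap.finrank_le_finrank_of_injective hg)

/-- the block C4a from the statement `mach` for `V + V*` -/
theorem form_aux6 (G : Gr L h E Λ) {Q : Matrix n n ℂ} (h2 : (E 0)ᵀ * Q = Q) (h3 : Q * E 0 = Q)
    (hz : ∀ z ∈ KK L E, zᵀ * Q + Q * z = 0)
    (mach : ∀ T : Matrix (n ⊕ n) (n ⊕ n) ℂ, Ck (L26 L) (E26 E) T → ∃ T', Ext (L26 L) (h26 h) (E26 E) T T') :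
    ∃ B : Matrix n n ℂ, B * E 0 = Q ∧ (E 0)ᵀ * B = Q ∧ hᵀ * B + B * h = 0 ∧
      ∀ ν : ℝ, ν ≠ 0 → ∀ x ∈ Ld L h ν, xᵀ * B + B * x = 0 := by
  by_cases hE : E 0 = 1
  · have hh : h = 0 := by
      have e := G.spec.h_mul 0
      rw [hE, mul_one] at e
      rw [e]
      simp
    refine ⟨Q, h3, h2, ?_, ?_⟩
    · rw [hh, transpose_zero, zero_mul, mul_zero, add_zero]
    · intro ν hν x hx
      have e : h * x - x * h = (ν : ℂ) • x := hx.2
      rw [hh, zero_mul, mul_zero, sub_zero] at e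
      have hx0 : x = 0 := by
        rcases smul_eq_zero.1 e.symm with e1 | e1
        · exact absurd (Complex.ofReal_eq_zero.1 e1) hν
        · exact e1
      rw [hx0, transpose_zero, zero_mul, mul_zero, add_zero]
  · have hC : Ck (L26 L) (E26 E) (fromBlocks 0 0 Q 0) := by
      refine ⟨?_, ?_, ?_⟩
      · unfold E26
        rw [neg_zero, fromBlocks_multiply]
        simp [h2]
      · unfold E26
        rw [neg_zero, fromBlocks_multiply]
        simp [h3]
      · rintro _ ⟨⟨x, hx, c, rfl⟩, hk⟩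
        unfold dd6 E26 at hk
        rw [neg_zero, fromBlocks_multiply, fromBlocks_multiply] at hk
        simp only [mul_zero, zero_mul, add_zero, zero_add] at hk
        rw [fromBlocks_inj] at hk
        obtain ⟨k1, -, -, k2⟩ := hk
        have k3 : (E 0)ᵀ * (E 0)ᵀ = (E 0)ᵀ := by
          rw [← transpose_mul, G.spec.mul, if_pos rfl]
        have k4 : (E 0)ᵀ * xᵀ * (E 0)ᵀ = xᵀ := by
          rw [← transpose_mul, ← transpose_mul, ← mul_assoc, k1]
        have hc : c = 0 := by
          by_contra hc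
          rw [mul_add, add_mul, mul_neg, neg_mul, k4, mul_smul_comm, smul_mul_assoc, mul_one, k3] at k2
          have k5 : c • (E 0)ᵀ = c • (1 : Matrix n n ℂ) := add_left_cancel k2
          have k6 : (E 0)ᵀ = 1 := by
            have := congrArg (fun M => c⁻¹ • M) k5
            simpa [smul_smul, inv_mul_cancel₀ hc] using this
          apply hE
          have := congrArg Matrix.transpose k6
          rwa [transpose_transpose, transpose_one] at this
        have k7 := hz x ⟨hx, k1⟩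
        subst hc
        unfold dd6
        rw [zero_smul, add_zero, fromBlocks_multiply, fromBlocks_multiply]
        simp only [mul_zero, zero_mul, add_zero, zero_add, neg_mul]
        congr 1
        rw [eq_neg_iff_add_eq_zero, add_comm]
        exact k7
    obtain ⟨T', hT1, hT2, hT3, hT4⟩ := mach _ hC
    obtain ⟨a, b, B, d, rfl⟩ : ∃ a b c d, T' = fromBlocks a b c d :=
      ⟨T'.toBlocks₁₁, T'.toBlocks₁₂, T'.toBlocks₂₁, T'.toBlocks₂₂, (fromBlocks_toBlocks T').symm⟩
    refine ⟨B, ?_, ?_, ?_, ?_⟩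
    · unfold E26 at hT1
      rw [fromBlocks_multiply, fromBlocks_inj] at hT1
      simpa using hT1.2.2.1
    · unfold E26 at hT2
      rw [fromBlocks_multiply, fromBlocks_inj, neg_zero] at hT2
      simpa using hT2.2.2.1
    · unfold h26 at hT3
      rw [fromBlocks_multiply, fromBlocks_multiply, fromBlocks_inj] at hT3
      have e := hT3.2.2.1
      simp only [mul_zero, zero_mul, add_zero, zero_add, neg_mul] at e
      rw [e, add_neg_cancel]
    · intro ν hν x hx
      have hX : dd6 x 0 ∈ Ld (L26 L) (h26 h) ν := by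
        refine ⟨⟨x, hx.1, 0, rfl⟩, ?_⟩
        have e : h * x - x * h = (ν : ℂ) • x := hx.2
        rw [← dd6_h, dd6_mul_sub, e]
        unfold dd6
        rw [fromBlocks_smul, transpose_smul, zero_smul, add_zero, add_zero, smul_zero, smul_neg]
      have e := hT4 ν hν _ hX
      unfold dd6 at e
      rw [zero_smul, add_zero, fromBlocks_multiply, fromBlocks_multiply, fromBlocks_inj] at e
      have e2 := e.2.2.1
      simp only [mul_zero, zero_mul, add_zero, zero_add, neg_mul] at e2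
      rw [e2, add_neg_cancel]

end GH
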